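import Pool.Agent.helper58.DC.Spec3

/-!
# dq:WNQ the number of elements with stabiliser exactly the base group (copy of helper79/DC/WN.lean)
-/

set_option autoImplicit false

namespace Pool.Agent.helper60.DC

open Pool.Agent.helper58.DC

theorem WNQ_bij (A Q T : Type) [Group A] [Group Q] [MulAction Q T] (V : Subgroup Q) :
    Function.Bijective (fun V' : {V' : Subgroup Q // V ≤ V'} =>
      (⟨wqU A T V'.1, fun _ hx => V'.2 hx⟩ : {V'' : Subgroup (WrQ A Q T) // wqU A T V ≤ V''})) := by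
  constructor
  · rintro ⟨V1, h1⟩ ⟨V2, h2⟩ h
    have h3 : wqU A T V1 = wqU A T V2 := congrArg Subtype.val h
    refine Subtype.ext (Subgroup.ext fun σ => ?_)
    have h4 : (⟨σ, fun _ => 1⟩ : WrQ A Q T) ∈ wqU A T V1 ↔
        (⟨σ, fun _ => 1⟩ : WrQ A Q T) ∈ wqU A T V2 := by rw [h3]
    exact h4
  · rintro ⟨V'', h⟩
    have hb : ∀ a : T → A, (⟨1, a⟩ : WrQ A Q T) ∈ V'' := fun a => h V.one_mem
    have hm : ∀ x : WrQ A Q T, x ∈ V'' ↔ (⟨x.σ, fun _ => 1⟩ : WrQ A Q T) ∈ V'' := by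
      intro x
      have hx : x = ⟨x.σ, fun _ => 1⟩ * ⟨1, x.a⟩ := by
        apply WrQ.ext
        · simp
        · funext t
          simp
      constructor
      · intro h1
        rw [hx] at h1
        exact (V''.mul_mem_cancel_right (hb _)).1 h1
      · intro h1
        rw [hx]
        exact V''.mul_mem h1 (hb _)
    let P : WrQ A Q T →* Q :=
      { toFun := fun x => x.σ
        map_one' := rfl
        map_mul' := fun _ _ => rfl }
    have hP : ∀ σ, σ ∈ V''.map P ↔ (⟨σ, fun _ => 1⟩ : WrQ A Q T) ∈ V'' := by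
      intro σ
      rw [Subgroup.mem_map]
      constructor
      · rintro ⟨x, hx, rfl⟩
        exact (hm x).1 hx
      · intro h1
        exact ⟨_, h1, rfl⟩
    refine ⟨⟨V''.map P, fun σ hσ => (hP σ).2 (h hσ)⟩, ?_⟩
    refine Subtype.ext (Subgroup.ext fun x => ?_)
    show x.σ ∈ V''.map P ↔ x ∈ V''
    rw [hP, ← hm]

theorem WNQ (hMB : MB_stmt) (hWF : WFQ_stmt) (hFP : FP_stmt) (hTF : TF_stmt) : WNQ_stmt := by
  intro A _ _ q k _ S D hq hD
  have hfW : Finite (W q k) := (hTF q k hq).2.2.1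
  have hfin : Finite (WrQ A (W q k) (TT q k)) :=
    Finite.of_injective (fun x : WrQ A (W q k) (TT q k) => (x.σ, x.a)) fun x y h => by
      rw [Prod.mk.injEq] at h
      exact WrQ.ext h.1 h.2
  refine hFP q k hq (fun V => (pathS S (wqC A (W q k) (TT q k))).num
    ((Fintype.card (TT q k) : ℤ) * D) (wqU A (TT q k) V)) (S.fix D ⊤) fun V => ?_
  rw [← hWF A (W q k) (TT q k) S D V hD, hMB (WrQ A (W q k) (TT q k))
    (pathS S (wqC A (W q k) (TT q k))) ((Fintype.card (TT q k) : ℤ) * D) (wqU A (TT q k) V)]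
  exact finsum_eq_of_bijective _ (WNQ_bij A (W q k) (TT q k) V) fun _ => rfl

end Pool.Agent.helper60.DC
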